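import Mathlib

set_option autoImplicit false

namespace Pool.Agent.Results.MP_12ef09_al.RandomFpp

open Filter Topology MeasureTheory

/-- Vertices of level `k` of the spherically homogeneous rooted tree in which every vertex of level
`i` has `m i` children: a vertex is the list of the choices made on the way down from the root. -/
abbrev Lev (m : ℕ → ℕ) (k : ℕ) : Type := (i : Fin k) → Fin (m i)

/-- The parent of a vertex of level `k + 1`. -/
def parent {m : ℕ → ℕ} {k : ℕ} (v : Lev m (k + 1)) : Lev m k := fun i => v i.castSucc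

/-- Automorphisms of the rooted tree: families of permutations of the levels that are compatible
with the parent maps. -/
@[ext] structure AutT (m : ℕ → ℕ) where
  /-- the permutation of level `k` -/
  perm : (k : ℕ) → Equiv.Perm (Lev m k)
  compat : ∀ (k : ℕ) (v : Lev m (k + 1)), parent (perm (k + 1) v) = perm k (parent v)

section
variable {m : ℕ → ℕ}

instance : Mul (AutT m) := ⟨fun g h => ⟨fun k => g.perm k * h.perm k, fun k v => by
  show parent (g.perm (k + 1) (h.perm (k + 1) v)) = g.perm k (h.perm k (parent v))
  rw [g.compat, h.compat]⟩⟩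

instance : One (AutT m) := ⟨⟨fun _ => 1, fun _ _ => rfl⟩⟩

instance : Inv (AutT m) := ⟨fun g => ⟨fun k => (g.perm k)⁻¹, fun k v => by
  show parent ((g.perm (k + 1)).symm v) = (g.perm k).symm (parent v)
  rw [Equiv.eq_symm_apply, ← g.compat, Equiv.apply_symm_apply]⟩⟩

/-- The group structure is composition. -/
instance : Group (AutT m) :=
  Group.ofLeftAxioms (fun _ _ _ => AutT.ext (funext fun _ => mul_assoc _ _ _))
    (fun _ => AutT.ext (funext fun _ => one_mul _))
    (fun _ => AutT.ext (funext fun _ => inv_mul_cancel _))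

end

/-- The restriction to level `k`. -/
def res (m : ℕ → ℕ) (k : ℕ) : AutT m →* Equiv.Perm (Lev m k) where
  toFun g := g.perm k
  map_one' := rfl
  map_mul' _ _ := rfl

/-- The profinite topology of the automorphism group: the coarsest one for which the restrictions
to the (finite, discrete) permutation groups of the levels are continuous. -/
instance topAutT (m : ℕ → ℕ) : TopologicalSpace (AutT m) :=
  ⨅ k : ℕ, TopologicalSpace.induced (res m k) ⊥

/-- The Borel sigma-algebra. -/
instance measAutT (m : ℕ → ℕ) : MeasurableSpace (AutT m) := borel (AutT m)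

/-- The proportion of the elements of the restriction of `H` to level `k` that fix a vertex of
level `k`. -/
noncomputable def prop {m : ℕ → ℕ} (H : Subgroup (AutT m)) (k : ℕ) : ℝ :=
  (Set.ncard {s : Equiv.Perm (Lev m k) | s ∈ H.map (res m k) ∧ ∃ v : Lev m k, s v = v} : ℝ) /
    (Set.ncard (H.map (res m k) : Set (Equiv.Perm (Lev m k))) : ℝ)

/-- The fixed-point proportion of `H` is `c`. -/
def HasFPP {m : ℕ → ℕ} (H : Subgroup (AutT m)) (c : ℝ) : Prop :=
  Tendsto (prop H) atTop (𝓝 c)

/-- `H` has a positive fixed-point proportion. -/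
def PosFPP {m : ℕ → ℕ} (H : Subgroup (AutT m)) : Prop := ∃ c : ℝ, 0 < c ∧ HasFPP H c

/-- `G` is transitive on every level. -/
def LevelTransitive {m : ℕ → ℕ} (G : Subgroup (AutT m)) : Prop :=
  ∀ (k : ℕ) (v w : Lev m k), ∃ g ∈ G, res m k g v = w

/-- The subgroup of the automorphism group generated by a tuple of elements of `G`. -/
def gen {m : ℕ → ℕ} {G : Subgroup (AutT m)} {n : ℕ} (g : Fin n → G) : Subgroup (AutT m) :=
  Subgroup.closure (Set.range fun i => (g i : AutT m))

/-- The constant branching sequence of the binary tree. -/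
abbrev two : ℕ → ℕ := fun _ => 2

/-- The translation of all the levels by a binary sequence. -/
def tr (c : ℕ → Fin 2) : AutT two :=
  ⟨fun k => Equiv.addRight (fun i : Fin k => c i), fun _ _ => rfl⟩

theorem tr_apply (c : ℕ → Fin 2) (k : ℕ) (v : Lev two k) :
    res two k (tr c) v = fun i : Fin k => v i + c i := rfl

/-- Translations as a homomorphism. -/
def Θ : Multiplicative (ℕ → Fin 2) →* AutT two where
  toFun c := tr c.toAdd
  map_one' := by
    apply AutT.ext
    funext k
    ext1 v
    funext i
    show v i + 0 = v i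
    rw [add_zero]
  map_mul' c d := by
    apply AutT.ext
    funext k
    ext1 v
    funext i
    show v i + (c.toAdd i + d.toAdd i) = v i + d.toAdd i + c.toAdd i
    rw [add_assoc, add_comm (c.toAdd i)]

/-- The group of translations. -/
def G : Subgroup (AutT two) := Θ.range

theorem fix_eq_one (c : ℕ → Fin 2) (k : ℕ) (v : Lev two k) (h : res two k (tr c) v = v) :
    res two k (tr c) = 1 := by
  ext1 w
  rw [tr_apply] at h ⊢
  funext i
  have h2 : v i + c i = v i := congrFun h i
  have h3 : c i = 0 := add_eq_left.1 h2
  show w i + c i = w i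
  rw [h3, add_zero]

theorem num_eq {H : Subgroup (AutT two)} (hH : H ≤ G) (k : ℕ) :
    {s : Equiv.Perm (Lev two k) | s ∈ H.map (res two k) ∧ ∃ v : Lev two k, s v = v} = {1} := by
  ext s
  constructor
  · rintro ⟨⟨h, hh, rfl⟩, v, hv⟩
    obtain ⟨c, rfl⟩ := hH hh
    exact fix_eq_one _ k v hv
  · rintro rfl
    exact ⟨Subgroup.one_mem _, fun _ => 0, rfl⟩

theorem prop_eq {H : Subgroup (AutT two)} (hH : H ≤ G) (k : ℕ) :
    prop H k = 1 / (Set.ncard (H.map (res two k) : Set (Equiv.Perm (Lev two k))) : ℝ) := by
  rw [prop, num_eq hH k, Set.ncard_singleton, Nat.cast_one]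

theorem trans_G (k : ℕ) (v w : Lev two k) : ∃ g ∈ G, res two k g v = w := by
  refine ⟨tr (fun i => if h : i < k then w ⟨i, h⟩ - v ⟨i, h⟩ else 0),
    ⟨Multiplicative.ofAdd (fun i => if h : i < k then w ⟨i, h⟩ - v ⟨i, h⟩ else 0), rfl⟩, ?_⟩
  rw [tr_apply]
  funext i
  simp

theorem card_G (k : ℕ) : 2 ^ k ≤ Set.ncard (G.map (res two k) : Set (Equiv.Perm (Lev two k))) := by
  have h1 : (fun s : Equiv.Perm (Lev two k) => s (fun _ => 0)) ''
      (G.map (res two k) : Set (Equiv.Perm (Lev two k))) = Set.univ := by
    rw [Set.eq_univ_iff_forall]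
    intro w
    obtain ⟨g, hg, h⟩ := trans_G k (fun _ => 0) w
    exact ⟨res two k g, ⟨g, hg, rfl⟩, h⟩
  have h2 := Set.ncard_image_le (f := fun s : Equiv.Perm (Lev two k) => s (fun _ => 0))
    (Set.toFinite (G.map (res two k) : Set (Equiv.Perm (Lev two k))))
  rw [h1, Set.ncard_univ] at h2
  refine le_trans (le_of_eq ?_) h2
  simp [Lev]

theorem fpp_G : HasFPP G 0 := by
  have h1 : ∀ k, prop G k ≤ (1 / 2 : ℝ) ^ k := by
    intro k
    rw [prop_eq le_rfl, one_div_pow]
    refine one_div_le_one_div_of_le (by positivity) ?_
    exact_mod_cast card_G k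
  have h0 : ∀ k, 0 ≤ prop G k := by
    intro k
    rw [prop_eq le_rfl]
    positivity
  exact squeeze_zero h0 h1 (tendsto_pow_atTop_nhds_zero_of_lt_one (by norm_num) (by norm_num))

theorem fpp_fin {H : Subgroup (AutT two)} (hH : H ≤ G) (hfin : (H : Set (AutT two)).Finite) :
    ∃ c : ℝ, 0 < c ∧ HasFPP H c := by
  have hpos : 0 < Set.ncard (H : Set (AutT two)) :=
    (Set.ncard_pos hfin).2 ⟨1, H.one_mem⟩
  refine ⟨1 / (Set.ncard (H : Set (AutT two)) : ℝ), by positivity, ?_⟩
  have hev : ∀ᶠ k in atTop, ∀ h ∈ (H : Set (AutT two)), (res two k h = 1 → h = 1) := by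
    rw [Filter.eventually_all_finite hfin]
    intro h hh
    obtain ⟨c, rfl⟩ := hH hh
    by_cases hc : c.toAdd = 0
    · refine Eventually.of_forall fun k _ => ?_
      have : c = 1 := hc
      rw [this, map_one]
    · obtain ⟨i, hi⟩ := Function.ne_iff.1 hc
      filter_upwards [eventually_gt_atTop i] with k hk h1
      exfalso
      apply hi
      have h2 := congrFun (congrArg (fun s : Equiv.Perm (Lev two k) => s (fun _ => 0)) h1) ⟨i, hk⟩
      have h3 : (0 : Fin 2) + c.toAdd i = 0 := h2
      rwa [zero_add] at h3
  refine tendsto_const_nhds.congr' ?_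
  filter_upwards [hev] with k hk
  rw [prop_eq hH]
  have h2 : (H.map (res two k) : Set (Equiv.Perm (Lev two k))) = res two k '' (H : Set (AutT two)) := rfl
  rw [h2, Set.InjOn.ncard_image]
  intro a ha b hb hab
  have h3 := hk (a * b⁻¹) (H.mul_mem ha (H.inv_mem hb)) (by
    rw [map_mul, map_inv]
    have : res two k a = res two k b := hab
    rw [this, mul_inv_cancel])
  exact mul_inv_eq_one.1 h3

theorem finite_fg (n : ℕ) (g : Fin n → G) :
    ((Subgroup.closure (Set.range fun i => (g i : AutT two)) : Subgroup (AutT two)) :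
      Set (AutT two)).Finite := by
  have hc : ∀ i, ∃ c : Multiplicative (ℕ → Fin 2), Θ c = g i := fun i => (g i).2
  choose c hc using hc
  have h1 : Subgroup.closure (Set.range fun i => (g i : AutT two)) =
      (Subgroup.closure (Set.range c)).map Θ := by
    rw [MonoidHom.map_closure, ← Set.range_comp]
    congr 1
    congr 1
    funext i
    exact (hc i).symm
  rw [h1]
  have hfg : Group.FG (Subgroup.closure (Set.range c)) :=
    (Group.fg_iff_subgroup_fg _).2 ((Subgroup.fg_iff _).2 ⟨Set.range c, rfl, Set.finite_range c⟩)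
  have htor : IsMulTorsion (Subgroup.closure (Set.range c)) := by
    intro x
    rw [isOfFinOrder_iff_pow_eq_one]
    refine ⟨2, by norm_num, ?_⟩
    apply Subtype.ext
    show (x : Multiplicative (ℕ → Fin 2)) ^ 2 = 1
    have : ∀ z : Fin 2, 2 • z = 0 := by decide
    funext i
    exact this _
  have hfin : Finite (Subgroup.closure (Set.range c)) := CommGroup.finite_of_fg_isMulTorsion _ htor
  have h2 : ((Subgroup.closure (Set.range c) : Subgroup (Multiplicative (ℕ → Fin 2))) :
    Set (Multiplicative (ℕ → Fin 2))).Finite := Set.toFinite _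
  exact h2.image Θ

theorem closed_G : IsClosed (G : Set (AutT two)) := by
  rw [← isOpen_compl_iff, isOpen_iff_forall_mem_open]
  intro g hg
  -- an element that agrees with a translation on every level is a translation
  have hlev : ∃ k, ∀ c : ℕ → Fin 2, res two k g ≠ res two k (tr c) := by
    by_contra hcon
    push Not at hcon
    choose c hc using hcon
    apply hg
    refine ⟨Multiplicative.ofAdd (fun i => c (i + 1) i), ?_⟩
    apply AutT.ext
    funext k
    show res two k (tr fun i => c (i + 1) i) = res two k g
    rw [hc k]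
    -- the sequences agree below `k`
    have key : ∀ (k i : ℕ) (h : i < k), c k i = c (i + 1) i := by
      intro k i h
      induction k with
      | zero => omega
      | succ k ih =>
        rcases Nat.lt_or_ge i k with h1 | h1
        · rw [← ih h1]
          -- compare levels `k` and `k + 1`
          have e1 := g.compat k (fun _ => 0)
          have e2 : g.perm (k + 1) = res two (k + 1) g := rfl
          have e3 : g.perm k = res two k g := rfl
          rw [e2, e3, hc, hc] at e1
          have e4 := congrFun e1 ⟨i, h1⟩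
          have e5 : (0 : Fin 2) + c (k + 1) i = 0 + c k i := e4
          rwa [zero_add, zero_add] at e5
        · have : i = k := by omega
          rw [this]
    ext1 v
    rw [tr_apply, tr_apply]
    funext i
    rw [key k i i.2]
  obtain ⟨k, hk⟩ := hlev
  refine ⟨(res two k) ⁻¹' {res two k g}, ?_, ?_, rfl⟩
  · rintro h hh ⟨c, rfl⟩
    exact hk c.toAdd hh.symm
  · have h1 : @IsOpen (AutT two) (TopologicalSpace.induced (res two k) ⊥)
        ((res two k) ⁻¹' {res two k g}) := ⟨{res two k g}, trivial, rfl⟩
    have h2 : topAutT two ≤ TopologicalSpace.induced (res two k) ⊥ := iInf_le _ k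
    exact h2 _ h1

/-- Random finitely generated subgroups of a closed group with fixed-point proportion zero can have
positive fixed-point proportion: there are a spherically homogeneous rooted tree and a closed
level-transitive group `G` of automorphisms of it with fixed-point proportion `0` such that, for
every `n ≥ 1`, every `n`-tuple of elements of `G` (in particular almost every one for the product
of the Haar probability measures) generates a subgroup with positive fixed-point proportion. -/
theorem result :
    ∃ (m : ℕ → ℕ) (_ : ∀ k, 2 ≤ m k) (G : Subgroup (AutT m)),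
      IsClosed (G : Set (AutT m)) ∧ LevelTransitive G ∧ HasFPP G 0 ∧
      ∀ n : ℕ, 0 < n →
        (∀ g : Fin n → G, PosFPP (gen g)) ∧
        (∀ μ : Measure G, μ.IsHaarMeasure → IsProbabilityMeasure μ →
          (Measure.pi fun _ : Fin n => μ) {g : Fin n → G | PosFPP (gen g)} = 1) := by
  have hle : ∀ (n : ℕ) (g : Fin n → G), gen g ≤ G := by
    intro n g
    rw [gen, Subgroup.closure_le]
    rintro _ ⟨i, rfl⟩
    exact (g i).2
  refine ⟨two, fun _ => le_rfl, G, closed_G, trans_G, fpp_G, fun n _ => ⟨fun g =>
    fpp_fin (hle n g) (finite_fg n g), fun μ _ hμ => ?_⟩⟩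
  have : {g : Fin n → G | PosFPP (gen g)} = Set.univ := by
    rw [Set.eq_univ_iff_forall]
    exact fun g => fpp_fin (hle n g) (finite_fg n g)
  rw [this]
  exact measure_univ

end Pool.Agent.Results.MP_12ef09_al.RandomFpp
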